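import Pool.Agent.H289R4.Orb.Group

set_option autoImplicit false
set_option linter.unusedSectionVars false

open Topology unitInterval

namespace Pool.Agent.H289R4.Orb

/-! ## Configuration orbifolds of `M = X/H` and the forgetful map -/

section config

variable (H X : Type*) [Group H] [TopologicalSpace X] [MulAction H X]

/-- `PB_n(X, H)`: the `n`-tuples of points of `X` with pairwise distinct `H`-orbits. The
configuration orbifold `PB_n(M)` of `M = X/H` is the quotient of this space by `H^n`. -/
def PB (n : ℕ) : Type _ := {z : Fin n → X // ∀ i j, i ≠ j → ∀ h : H, z i ≠ h • z j}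

instance (n : ℕ) : TopologicalSpace (PB H X n) := instTopologicalSpaceSubtype

variable {H X} in
theorem PB.smul_mem {n : ℕ} (k : Fin n → H) (z : PB H X n) (i j : Fin n) (hij : i ≠ j) (h : H) :
    k i • z.1 i ≠ h • (k j • z.1 j) := fun e =>
  z.2 i j hij ((k i)⁻¹ * h * k j) (by rw [mul_smul, mul_smul, ← e, inv_smul_smul])

/-- The coordinatewise action of `H^n` on `PB_n(X, H)`. -/
instance (n : ℕ) : MulAction (Fin n → H) (PB H X n) where
  smul k z := ⟨fun i => k i • z.1 i, PB.smul_mem k z⟩
  one_smul z := Subtype.ext (funext fun i => one_smul H (z.1 i))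
  mul_smul k l z := Subtype.ext (funext fun i => mul_smul (k i) (l i) (z.1 i))

variable {H X}

instance (n : ℕ) [ContinuousConstSMul H X] :
    ContinuousConstSMul (Fin n → H) (PB H X n) where
  continuous_const_smul k := by
    refine Continuous.subtype_mk (continuous_pi fun i => ?_) _
    exact ((continuous_apply i).comp continuous_subtype_val).const_smul (k i)

/-- The space `X ∖ H{y_1, …, y_n}` which covers the fibre orbifold
`F_y = M ∖ {y_1, …, y_n}` of the forgetful map over `y`. -/
def Fib {n : ℕ} (y : PB H X n) : Type _ := {x : X // ∀ i, ∀ h : H, x ≠ h • y.1 i}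

instance {n : ℕ} (y : PB H X n) : TopologicalSpace (Fib y) := instTopologicalSpaceSubtype

theorem Fib.smul_mem {n : ℕ} {y : PB H X n} (k : H) (x : Fib y) (i : Fin n) (h : H) :
    k • x.1 ≠ h • y.1 i := fun e =>
  x.2 i (k⁻¹ * h) (by rw [mul_smul, ← e, inv_smul_smul])

/-- The action of `H` on `X ∖ H{y_1, …, y_n}`. -/
instance {n : ℕ} (y : PB H X n) : MulAction H (Fib y) where
  smul k x := ⟨k • x.1, Fib.smul_mem k x⟩
  one_smul x := Subtype.ext (one_smul H x.1)
  mul_smul k l x := Subtype.ext (mul_smul k l x.1)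

instance {n : ℕ} [ContinuousConstSMul H X] (y : PB H X n) :
    ContinuousConstSMul H (Fib y) where
  continuous_const_smul k :=
    Continuous.subtype_mk (continuous_subtype_val.const_smul k) _

theorem forget_mem {n : ℕ} (z : PB H X (n + 1)) (i j : Fin n) (hij : i ≠ j) (h : H) :
    z.1 i.castSucc ≠ h • z.1 j.castSucc :=
  z.2 _ _ (fun e => hij (Fin.castSucc_injective _ e)) h

theorem continuous_forget (n : ℕ) : Continuous fun z : PB H X (n + 1) =>
    (⟨fun i => z.1 i.castSucc, forget_mem z⟩ : PB H X n) := by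
  refine Continuous.subtype_mk (continuous_pi fun i => ?_) _
  exact (continuous_apply _).comp continuous_subtype_val

/-- The forgetful map `f : PB_{n+1} → PB_n`, which drops the last coordinate. -/
def forget (n : ℕ) : C(PB H X (n + 1), PB H X n) where
  toFun z := ⟨fun i => z.1 i.castSucc, forget_mem z⟩
  continuous_toFun := continuous_forget n

/-- The group homomorphism `H^{n+1} → H^n` which drops the last coordinate. -/
def forgetHom (H : Type*) [Group H] (n : ℕ) : (Fin (n + 1) → H) →* (Fin n → H) where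
  toFun k i := k i.castSucc
  map_one' := rfl
  map_mul' _ _ := rfl

theorem forget_smul (n : ℕ) (k : Fin (n + 1) → H) (z : PB H X (n + 1)) :
    forget n (k • z) = forgetHom H n k • forget n z := rfl

theorem incl_mem {n : ℕ} {y : PB H X n} (x : Fib y) (i j : Fin (n + 1)) (hij : i ≠ j) (h : H) :
    Fin.snoc (α := fun _ => X) y.1 x.1 i ≠ h • Fin.snoc (α := fun _ => X) y.1 x.1 j := by
  revert hij
  refine Fin.lastCases ?_ (fun i => ?_) i <;>
    refine Fin.lastCases ?_ (fun j => ?_) j <;> intro hij
  · exact absurd rfl hij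
  · rw [Fin.snoc_last, Fin.snoc_castSucc]
    exact x.2 j h
  · rw [Fin.snoc_last, Fin.snoc_castSucc]
    intro e
    exact x.2 i h⁻¹ (by rw [e, inv_smul_smul])
  · rw [Fin.snoc_castSucc, Fin.snoc_castSucc]
    exact y.2 i j (fun e => hij (by rw [e])) h

theorem continuous_incl {n : ℕ} (y : PB H X n) : Continuous fun x : Fib y =>
    (⟨Fin.snoc (α := fun _ => X) y.1 x.1, incl_mem x⟩ : PB H X (n + 1)) := by
  refine Continuous.subtype_mk (continuous_pi fun i => ?_) _
  refine Fin.lastCases ?_ (fun i => ?_) i
  · simp only [Fin.snoc_last]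
    exact continuous_subtype_val
  · simp only [Fin.snoc_castSucc]
    exact continuous_const

/-- The inclusion `i : F_y → PB_{n+1}` of the fibre over `y`. -/
def incl {n : ℕ} (y : PB H X n) : C(Fib y, PB H X (n + 1)) where
  toFun x := ⟨Fin.snoc (α := fun _ => X) y.1 x.1, incl_mem x⟩
  continuous_toFun := continuous_incl y

/-- The group homomorphism `H → H^{n+1}`, `h ↦ (1, …, 1, h)`. -/
def inclHom (H : Type*) [Group H] (n : ℕ) : H →* (Fin (n + 1) → H) where
  toFun h := Fin.snoc (α := fun _ => H) 1 h
  map_one' := by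
    funext i
    refine Fin.lastCases ?_ (fun i => ?_) i <;> simp
  map_mul' h k := by
    funext i
    refine Fin.lastCases ?_ (fun i => ?_) i <;> simp

theorem incl_smul {n : ℕ} (y : PB H X n) (h : H) (x : Fib y) :
    incl y (h • x) = inclHom H n h • incl y x := by
  refine Subtype.ext (funext fun i => ?_)
  change Fin.snoc (α := fun _ => X) y.1 (h • x.1) i =
    Fin.snoc (α := fun _ => H) 1 h i • Fin.snoc (α := fun _ => X) y.1 x.1 i
  refine Fin.lastCases ?_ (fun i => ?_) i
  · simp only [Fin.snoc_last]
  · simp only [Fin.snoc_castSucc, Pi.one_apply, one_smul]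

/-- The homomorphism `f_* : π₁ᵒʳᵇ(PB_{n+1}(M), z) → π₁ᵒʳᵇ(PB_n(M), f(z))`. -/
noncomputable def forgetStar [ContinuousConstSMul H X] {n : ℕ} (z : PB H X (n + 1)) :
    OrbPi1 (Fin (n + 1) → H) z →* OrbPi1 (Fin n → H) (forget n z) :=
  OrbPi1.map (forgetHom H n) (forget n) (forget_smul n)

/-- The homomorphism `i_* : π₁ᵒʳᵇ(F_y, x) → π₁ᵒʳᵇ(PB_{n+1}(M), (y, x))`. -/
noncomputable def inclStar [ContinuousConstSMul H X] {n : ℕ} (y : PB H X n) (x : Fib y) :
    OrbPi1 H x →* OrbPi1 (Fin (n + 1) → H) (incl y x) :=
  OrbPi1.map (inclHom H n) (incl y) (incl_smul y)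

/-- Exactness of
`π₁ᵒʳᵇ(F_y, x) → π₁ᵒʳᵇ(PB_{n+1}(M), (y, x)) → π₁ᵒʳᵇ(PB_n(M), y)`
at the middle term: the image of the first homomorphism is the kernel of the second one. It is part
of the requirement that `f(M)` be a quasifibration, for every choice of the homomorphisms `∂`,
which do not occur in it. -/
def ExactAtMiddle [ContinuousConstSMul H X] {n : ℕ} (y : PB H X n) (x : Fib y) : Prop :=
  (inclStar y x).range = (forgetStar (incl y x)).ker

/-- `y` is a smooth point of the configuration orbifold: its isotropy group is trivial. -/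
def IsSmoothPoint {n : ℕ} (y : PB H X n) : Prop := ∀ k : Fin n → H, k • y = y → k = 1

end config

end Pool.Agent.H289R4.Orb
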