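import Mathlib

set_option autoImplicit false

open Topology unitInterval

namespace Pool.Agent.H289R4.Orb

/-! ## Orbifold fundamental groups of global quotient orbifolds

For a group `G` acting by homeomorphisms on a space `X`, an element of the orbifold fundamental
group `π₁ᵒʳᵇ([X/G], x) = π₁(B(G ⋉ X), x)` of the translation groupoid `G ⋉ X` is a pair `(g, [c])`,
where `g ∈ G` and `[c]` is the homotopy class, relative to the end points, of a path `c` in `X` from
`x` to `g • x`; the product is `(g, [c]) (g', [c']) = (g g', [c * (g • c')])`. -/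

/-- A loop at `x` in the translation groupoid `G ⋉ X`: an element `g` of `G` and a path in `X` from
`x` to `g • x`. -/
structure OrbLoop (G : Type*) {X : Type*} [Group G] [TopologicalSpace X] [MulAction G X]
    (x : X) where
  /-- the group element -/
  g : G
  /-- the path -/
  c : C(I, X)
  c_zero : c 0 = x
  c_one : c 1 = g • x

section general

variable {G X : Type*} [Group G] [TopologicalSpace X] [MulAction G X]

/-- Two loops `(g, c)`, `(g', c')` are homotopic when `g = g'` and `c`, `c'` are homotopic relative
to the end points. -/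
def OrbLoop.Homotopic {x : X} (a b : OrbLoop G x) : Prop :=
  a.g = b.g ∧ a.c.HomotopicRel b.c {0, 1}

/-- Homotopy of loops in the translation groupoid is an equivalence relation. -/
instance OrbLoop.setoid (x : X) : Setoid (OrbLoop G x) where
  r := OrbLoop.Homotopic
  iseqv :=
    { refl := fun _ => ⟨rfl, ContinuousMap.HomotopicRel.refl _⟩
      symm := fun h => ⟨h.1.symm, h.2.symm⟩
      trans := fun h k => ⟨h.1.trans k.1, h.2.trans k.2⟩ }

/-- The orbifold fundamental group `π₁ᵒʳᵇ([X/G], x)`. -/
def OrbPi1 (G : Type*) {X : Type*} [Group G] [TopologicalSpace X] [MulAction G X] (x : X) : Type _ :=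
  Quotient (OrbLoop.setoid (G := G) x)

/-- The constant loop. -/
def OrbLoop.const (x : X) : OrbLoop G x := ⟨1, ContinuousMap.const I x, rfl, (one_smul G x).symm⟩

/-- The underlying path. -/
def OrbLoop.path {x : X} (a : OrbLoop G x) : Path x (a.g • x) := ⟨a.c, a.c_zero, a.c_one⟩

variable [ContinuousConstSMul G X]

/-- The product of two loops. -/
noncomputable def OrbLoop.mul {x : X} (a b : OrbLoop G x) : OrbLoop G x :=
  ⟨a.g * b.g, (a.path.trans (b.path.map (continuous_const_smul a.g))).toContinuousMap,
    Path.source _, (Path.target _).trans (mul_smul _ _ _).symm⟩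

/-- The inverse of a loop. -/
def OrbLoop.inv {x : X} (a : OrbLoop G x) : OrbLoop G x :=
  ⟨a.g⁻¹, (a.path.symm.map (continuous_const_smul a.g⁻¹)).toContinuousMap,
    (Path.source _).trans (inv_smul_smul _ _), Path.target _⟩

theorem OrbLoop.mul_homotopic {x : X} {a a' b b' : OrbLoop G x} (h : a.Homotopic a')
    (k : b.Homotopic b') : (a.mul b).Homotopic (a'.mul b') := by
  obtain ⟨g, c, h0, h1⟩ := a
  obtain ⟨g', c', h0', h1'⟩ := a'
  obtain ⟨f, d, k0, k1⟩ := b
  obtain ⟨f', d', k0', k1'⟩ := b'
  obtain ⟨hg, hc⟩ := h
  obtain ⟨kg, kc⟩ := k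
  dsimp only at hg hc kg kc
  subst hg kg
  refine ⟨rfl, ?_⟩
  have e1 : Path.Homotopic (OrbLoop.path (⟨g, c, h0, h1⟩ : OrbLoop G x))
      (OrbLoop.path (⟨g, c', h0', h1'⟩ : OrbLoop G x)) := hc
  have e2 : Path.Homotopic (OrbLoop.path (⟨f, d, k0, k1⟩ : OrbLoop G x))
      (OrbLoop.path (⟨f, d', k0', k1'⟩ : OrbLoop G x)) := kc
  exact e1.hcomp (e2.map (⟨_, continuous_const_smul g⟩ : C(X, X)))

theorem OrbLoop.inv_homotopic {x : X} {a a' : OrbLoop G x} (h : a.Homotopic a') :
    a.inv.Homotopic a'.inv := by
  obtain ⟨g, c, h0, h1⟩ := a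
  obtain ⟨g', c', h0', h1'⟩ := a'
  obtain ⟨hg, hc⟩ := h
  dsimp only at hg hc
  subst hg
  refine ⟨rfl, ?_⟩
  have e1 : Path.Homotopic (OrbLoop.path (⟨g, c, h0, h1⟩ : OrbLoop G x))
      (OrbLoop.path (⟨g, c', h0', h1'⟩ : OrbLoop G x)) := hc
  exact e1.symm₂.map (⟨_, continuous_const_smul g⁻¹⟩ : C(X, X))

/-- The product on the orbifold fundamental group. -/
noncomputable def OrbPi1.mul {x : X} : OrbPi1 G x → OrbPi1 G x → OrbPi1 G x :=
  Quotient.map₂ OrbLoop.mul fun _ _ h _ _ k => OrbLoop.mul_homotopic h k

/-- The neutral element of the orbifold fundamental group. -/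
def OrbPi1.one (x : X) : OrbPi1 G x := Quotient.mk _ (OrbLoop.const x)

/-- The inverse in the orbifold fundamental group. -/
def OrbPi1.inv {x : X} : OrbPi1 G x → OrbPi1 G x :=
  Quotient.map OrbLoop.inv fun _ _ h => OrbLoop.inv_homotopic h

theorem OrbPi1.mul_assoc {x : X} (a b c : OrbPi1 G x) :
    OrbPi1.mul (OrbPi1.mul a b) c = OrbPi1.mul a (OrbPi1.mul b c) := by
  induction a, b using Quotient.inductionOn₂ with
  | h a b =>
    induction c using Quotient.inductionOn with
    | h c =>
      refine Quotient.sound ⟨_root_.mul_assoc _ _ _, ?_⟩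
      let pa := a.path
      let pb := b.path.map (continuous_const_smul a.g)
      let pc := (c.path.map (continuous_const_smul b.g)).map (continuous_const_smul a.g)
      have e1 : ((a.mul b).mul c).c = ((pa.trans pb).trans pc).toContinuousMap := by
        refine ContinuousMap.ext fun t => ?_
        change ((a.mul b).path.trans (c.path.map (continuous_const_smul (a.mul b).g))) t =
          ((pa.trans pb).trans pc) t
        rw [Path.trans_apply, Path.trans_apply]
        split_ifs with h
        · rfl
        · exact mul_smul a.g b.g _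
      have e2 : (a.mul (b.mul c)).c = (pa.trans (pb.trans pc)).toContinuousMap := by
        refine ContinuousMap.ext fun t => ?_
        change (a.path.trans ((b.mul c).path.map (continuous_const_smul a.g))) t =
          (pa.trans (pb.trans pc)) t
        rw [Path.trans_apply, Path.trans_apply]
        split_ifs with h
        · rfl
        · change a.g • (b.path.trans (c.path.map (continuous_const_smul b.g))) _ =
            (pb.trans pc) _
          rw [Path.trans_apply, Path.trans_apply]
          split_ifs <;> rfl
      rw [e1, e2]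
      exact ⟨Path.Homotopy.transAssoc pa pb pc⟩

theorem OrbPi1.one_mul {x : X} (a : OrbPi1 G x) : OrbPi1.mul (OrbPi1.one x) a = a := by
  induction a using Quotient.inductionOn with
  | h a =>
    refine Quotient.sound ⟨_root_.one_mul _, ?_⟩
    have e1 : ((OrbLoop.const x).mul a).c = ((Path.refl x).trans a.path).toContinuousMap := by
      refine ContinuousMap.ext fun t => ?_
      change ((OrbLoop.const (G := G) x).path.trans
        (a.path.map (continuous_const_smul (OrbLoop.const (G := G) x).g))) t =
          ((Path.refl x).trans a.path) t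
      rw [Path.trans_apply, Path.trans_apply]
      split_ifs with h
      · rfl
      · exact one_smul G _
    rw [e1]
    exact ⟨(Path.Homotopy.reflTrans a.path)⟩

theorem OrbPi1.mul_one {x : X} (a : OrbPi1 G x) : OrbPi1.mul a (OrbPi1.one x) = a := by
  induction a using Quotient.inductionOn with
  | h a =>
    refine Quotient.sound ⟨_root_.mul_one _, ?_⟩
    have e1 : (a.mul (OrbLoop.const x)).c =
        (a.path.trans (Path.refl (a.g • x))).toContinuousMap := by
      refine ContinuousMap.ext fun t => ?_
      change (a.path.trans ((OrbLoop.const (G := G) x).path.map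
        (continuous_const_smul a.g))) t = (a.path.trans (Path.refl (a.g • x))) t
      rw [Path.trans_apply, Path.trans_apply]
      split_ifs with h
      · rfl
      · rfl
    rw [e1]
    exact ⟨(Path.Homotopy.transRefl a.path)⟩

theorem OrbPi1.inv_mul_cancel {x : X} (a : OrbPi1 G x) :
    OrbPi1.mul (OrbPi1.inv a) a = OrbPi1.one x := by
  induction a using Quotient.inductionOn with
  | h a =>
    refine Quotient.sound ⟨_root_.inv_mul_cancel _, ?_⟩
    let p := a.path.map (continuous_const_smul a.g⁻¹)
    have e1 : (a.inv.mul a).c = (p.symm.trans p).toContinuousMap := by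
      refine ContinuousMap.ext fun t => ?_
      change (a.inv.path.trans (a.path.map (continuous_const_smul a.inv.g))) t =
        (p.symm.trans p) t
      rw [Path.trans_apply, Path.trans_apply]
      split_ifs with h
      · rfl
      · rfl
    have e2 : (OrbLoop.const (G := G) x).c =
        (Path.refl (a.g⁻¹ • a.g • x)).toContinuousMap := by
      refine ContinuousMap.ext fun t => ?_
      exact (inv_smul_smul a.g x).symm
    rw [e1, e2]
    exact ⟨(Path.Homotopy.reflSymmTrans p).symm⟩

/-- The group structure of the orbifold fundamental group. -/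
noncomputable instance (x : X) : Group (OrbPi1 G x) where
  mul := OrbPi1.mul
  one := OrbPi1.one x
  inv := OrbPi1.inv
  mul_assoc := OrbPi1.mul_assoc
  one_mul := OrbPi1.one_mul
  mul_one := OrbPi1.mul_one
  inv_mul_cancel := OrbPi1.inv_mul_cancel

variable {G' X' : Type*} [Group G'] [TopologicalSpace X'] [MulAction G' X']

/-- The loop induced by an equivariant map. -/
def OrbLoop.map (φ : G →* G') (F : C(X, X')) (hF : ∀ (g : G) (x : X), F (g • x) = φ g • F x)
    {x : X} (a : OrbLoop G x) : OrbLoop G' (F x) :=
  ⟨φ a.g, F.comp a.c, by simp [a.c_zero], by simp [a.c_one, hF]⟩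

/-- The map of orbifold fundamental groups induced by an equivariant map. -/
def OrbPi1.mapFun (φ : G →* G') (F : C(X, X'))
    (hF : ∀ (g : G) (x : X), F (g • x) = φ g • F x)
    {x : X} : OrbPi1 G x → OrbPi1 G' (F x) :=
  Quotient.map (OrbLoop.map φ F hF) fun _ _ h =>
    ⟨congrArg φ h.1, h.2.map fun K => K.compContinuousMap F⟩

theorem OrbPi1.mapFun_one [ContinuousConstSMul G' X'] (φ : G →* G') (F : C(X, X'))
    (hF : ∀ (g : G) (x : X), F (g • x) = φ g • F x) {x : X} :
    OrbPi1.mapFun φ F hF (1 : OrbPi1 G x) = 1 := by
  refine Quotient.sound ⟨map_one φ, ?_⟩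
  have : ((OrbLoop.const x).map φ F hF).c = (OrbLoop.const (G := G') (F x)).c := rfl
  rw [this]
  exact ContinuousMap.HomotopicRel.refl _

theorem OrbPi1.mapFun_mul [ContinuousConstSMul G' X'] (φ : G →* G') (F : C(X, X'))
    (hF : ∀ (g : G) (x : X), F (g • x) = φ g • F x) {x : X} (a b : OrbPi1 G x) :
    OrbPi1.mapFun φ F hF (a * b) = OrbPi1.mapFun φ F hF a * OrbPi1.mapFun φ F hF b := by
  induction a, b using Quotient.inductionOn₂ with
  | h a b =>
    refine Quotient.sound ⟨map_mul φ _ _, ?_⟩
    have e1 : ((a.mul b).map φ F hF).c = ((a.map φ F hF).mul (b.map φ F hF)).c := by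
      refine ContinuousMap.ext fun t => ?_
      change F ((a.path.trans (b.path.map (continuous_const_smul a.g))) t) =
        ((a.map φ F hF).path.trans
          ((b.map φ F hF).path.map (continuous_const_smul (φ a.g)))) t
      rw [Path.trans_apply, Path.trans_apply]
      split_ifs with h
      · rfl
      · exact hF _ _
    rw [e1]
    exact ContinuousMap.HomotopicRel.refl _

/-- The homomorphism of orbifold fundamental groups induced by an equivariant map. -/
noncomputable def OrbPi1.map [ContinuousConstSMul G' X'] (φ : G →* G') (F : C(X, X'))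
    (hF : ∀ (g : G) (x : X), F (g • x) = φ g • F x)
    {x : X} : OrbPi1 G x →* OrbPi1 G' (F x) where
  toFun := OrbPi1.mapFun φ F hF
  map_one' := OrbPi1.mapFun_one φ F hF
  map_mul' := OrbPi1.mapFun_mul φ F hF

end general

end Pool.Agent.H289R4.Orb
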