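import Pool.Agent.H289R4.Orb.Defs

set_option autoImplicit false

open Topology unitInterval

namespace Pool.Agent.H289R4.Orb

/-- The plane `ℝ² = ℂ`, as a space with an action of the group `{±1}` of order `2` by the
reflection `(u, v) ↦ (-u, v)` in the vertical line. -/
def MirrorPlane : Type := ℂ

/-- the underlying complex number -/
def toC (z : MirrorPlane) : ℂ := z

/-- a complex number as a point of the plane -/
def ofC (z : ℂ) : MirrorPlane := z

@[simp] theorem toC_ofC (z : ℂ) : toC (ofC z) = z := rfl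

/-- The usual topology of the plane. -/
noncomputable instance : TopologicalSpace MirrorPlane :=
  TopologicalSpace.induced toC UniformSpace.toTopologicalSpace

theorem continuous_toC : Continuous toC := continuous_induced_dom

theorem continuous_ofC : Continuous ofC := continuous_induced_rng.2 continuous_id

theorem MirrorPlane.one_smul_aux (z : ℂ) :
    (⟨(((1 : ℤˣ) : ℤ) : ℝ) * z.re, z.im⟩ : ℂ) = z := by
  apply Complex.ext <;> simp

theorem MirrorPlane.mul_smul_aux (e e' : ℤˣ) (z : ℂ) :
    (⟨(((e * e' : ℤˣ) : ℤ) : ℝ) * z.re, z.im⟩ : ℂ) =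
      (⟨((e : ℤ) : ℝ) * (((e' : ℤ) : ℝ) * z.re), z.im⟩ : ℂ) := by
  apply Complex.ext
  · push_cast
    ring
  · rfl

/-- `ε • (u, v) = (ε u, v)` for `ε = ±1`. -/
instance : MulAction ℤˣ MirrorPlane where
  smul e z := ofC ⟨((e : ℤ) : ℝ) * (toC z).re, (toC z).im⟩
  one_smul z := MirrorPlane.one_smul_aux z
  mul_smul e e' z := MirrorPlane.mul_smul_aux e e' z

instance : ContinuousConstSMul ℤˣ MirrorPlane where
  continuous_const_smul e := by
    have h : Continuous fun z : ℂ => ((((e : ℤ) : ℝ) * z.re : ℝ) : ℂ) + (z.im : ℂ) * Complex.I := by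
      fun_prop
    have h2 : (fun z : ℂ => ((((e : ℤ) : ℝ) * z.re : ℝ) : ℂ) + (z.im : ℂ) * Complex.I) =
        fun z : ℂ => (⟨((e : ℤ) : ℝ) * z.re, z.im⟩ : ℂ) := by
      funext z
      apply Complex.ext <;> simp
    rw [h2] at h
    exact continuous_ofC.comp (h.comp continuous_toC)

theorem toC_smul (e : ℤˣ) (z : MirrorPlane) :
    toC (e • z) = ⟨((e : ℤ) : ℝ) * (toC z).re, (toC z).im⟩ := rfl

theorem toC_inj {z w : MirrorPlane} (h : toC z = toC w) : z = w := h

theorem neg_one_smul' (z : MirrorPlane) :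
    toC ((-1 : ℤˣ) • z) = ⟨-(toC z).re, (toC z).im⟩ := by
  rw [toC_smul]; simp

/-- the point `(|u|, v)` of the orbit of `(u, v)` -/
noncomputable def fold (p : ℂ) : ℂ := ⟨|p.re|, p.im⟩

theorem continuous_fold : Continuous fold := by
  have : fold = fun p : ℂ => ((|p.re| : ℝ) : ℂ) + (p.im : ℂ) * Complex.I := by
    funext p
    apply Complex.ext <;> simp [fold]
  rw [this]
  fun_prop

theorem exists_smul_fold (p : MirrorPlane) : ∃ h : ℤˣ, toC (h • p) = fold (toC p) := by
  rcases le_total 0 (toC p).re with h | h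
  · exact ⟨1, by rw [one_smul]; apply Complex.ext <;> simp [fold, abs_of_nonneg h]⟩
  · exact ⟨-1, by rw [neg_one_smul']; apply Complex.ext <;> simp [fold, abs_of_nonpos h]⟩

variable {m : ℕ}

/-- The function `(q - p) * conj (q - p*)`, where `p` is the first and `q` the last point. -/
noncomputable def W (z : PB ℤˣ MirrorPlane (m + 2)) : ℂ :=
  (toC (z.1 (Fin.last _)) - toC (z.1 0)) *
    (starRingEnd ℂ) (toC (z.1 (Fin.last _)) - fold (toC (z.1 0)))

theorem continuous_W : Continuous (W (m := m)) := by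
  have h0 : ∀ i, Continuous fun z : PB ℤˣ MirrorPlane (m + 2) => toC (z.1 i) := fun i =>
    continuous_toC.comp ((continuous_apply i).comp continuous_subtype_val)
  unfold W
  exact ((h0 _).sub (h0 _)).mul
    (Complex.continuous_conj.comp ((h0 _).sub (continuous_fold.comp (h0 _))))

theorem W_ne_zero (z : PB ℤˣ MirrorPlane (m + 2)) : W z ≠ 0 := by
  have hne : Fin.last (m + 1) ≠ 0 := (Fin.last_pos).ne'
  refine mul_ne_zero ?_ ?_
  · intro e
    refine z.2 _ _ hne 1 ?_
    rw [one_smul]
    exact toC_inj (sub_eq_zero.1 e)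
  · intro e
    obtain ⟨h, hh⟩ := exists_smul_fold (z.1 0)
    refine z.2 _ _ hne h ?_
    have := (map_eq_zero (starRingEnd ℂ)).1 e
    rw [← hh] at this
    exact toC_inj (sub_eq_zero.1 this)

/-- The circle-valued function `W / |W|`. -/
noncomputable def Psi : C(PB ℤˣ MirrorPlane (m + 2), Circle) where
  toFun z := ⟨W z / ‖W z‖, by
    refine mem_sphere_zero_iff_norm.2 ?_
    rw [norm_div, Complex.norm_real, norm_norm]
    exact div_self (norm_ne_zero_iff.2 (W_ne_zero z))⟩
  continuous_toFun := by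
    refine Continuous.subtype_mk ?_ _
    refine continuous_W.div (Complex.continuous_ofReal.comp continuous_W.norm) fun z => ?_
    simpa using W_ne_zero z

theorem coe_Psi (z : PB ℤˣ MirrorPlane (m + 2)) : (Psi z : ℂ) = W z / ‖W z‖ := rfl

/-- If the first point lies in the closed right half-plane, then `Psi = 1`. -/
theorem Psi_eq_one (z : PB ℤˣ MirrorPlane (m + 2)) (h : 0 ≤ (toC (z.1 0)).re) : Psi z = 1 := by
  apply Circle.ext
  rw [coe_Psi]
  have hf : fold (toC (z.1 0)) = toC (z.1 0) := by
    apply Complex.ext <;> simp [fold, abs_of_nonneg h]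
  have hW : W z = ((Complex.normSq (toC (z.1 (Fin.last _)) - toC (z.1 0)) : ℝ) : ℂ) := by
    rw [W, hf, Complex.mul_conj]
  have h0 : W z ≠ 0 := W_ne_zero z
  rw [hW] at h0 ⊢
  rw [Complex.norm_real, Real.norm_of_nonneg (Complex.normSq_nonneg _)]
  simpa using div_self h0

/-! ### The base points -/

/-- The base point `y = (1, 2, …, m + 1)`. -/
def basePt (m : ℕ) : PB ℤˣ MirrorPlane (m + 1) :=
  ⟨fun i => ofC ((((i : ℕ) : ℝ) + 1 : ℝ) : ℂ), fun i j hij h e => by
    have e1 : (((i : ℕ) : ℝ) + 1) = ((h : ℤ) : ℝ) * (((j : ℕ) : ℝ) + 1) := by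
      have h1 : (((((i : ℕ) : ℝ) + 1 : ℝ) : ℂ)).re =
          ((h : ℤ) : ℝ) * (((((j : ℕ) : ℝ) + 1 : ℝ) : ℂ)).re :=
        congrArg (fun z : MirrorPlane => (toC z).re) e
      simpa using h1
    rcases Int.units_eq_one_or h with rfl | rfl
    · apply hij
      apply Fin.ext
      have : ((i : ℕ) : ℝ) = ((j : ℕ) : ℝ) := by
        simpa using e1
      exact_mod_cast this
    · have hi : (0 : ℝ) ≤ ((i : ℕ) : ℝ) := Nat.cast_nonneg _
      have hj : (0 : ℝ) ≤ ((j : ℕ) : ℝ) := Nat.cast_nonneg _
      simp at e1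
      linarith⟩

/-- The base point `x = 1/2` of the fibre over `y`. -/
noncomputable def fibPt (m : ℕ) : Fib (basePt m) :=
  ⟨ofC ((1 / 2 : ℝ) : ℂ), fun i h e => by
    have e1 : (1 / 2 : ℝ) = ((h : ℤ) : ℝ) * (((i : ℕ) : ℝ) + 1) := by
      have h1 : (((1 / 2 : ℝ) : ℂ)).re =
          ((h : ℤ) : ℝ) * (((((i : ℕ) : ℝ) + 1 : ℝ) : ℂ)).re :=
        congrArg (fun z : MirrorPlane => (toC z).re) e
      simpa using h1
    have hi : (0 : ℝ) ≤ ((i : ℕ) : ℝ) := Nat.cast_nonneg _
    rcases Int.units_eq_one_or h with rfl | rfl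
    · simp at e1; linarith
    · simp at e1; linarith⟩

/-! ### The loop -/

theorem norm_toC_smul (h : ℤˣ) (z : MirrorPlane) : ‖toC (h • z)‖ = ‖toC z‖ := by
  rcases Int.units_eq_one_or h with rfl | rfl
  · rw [one_smul]
  · rw [neg_one_smul', Complex.norm_def, Complex.norm_def, Complex.normSq_apply,
      Complex.normSq_apply]
    simp

/-- The configuration `(w, 2, …, m + 1)`. -/
noncomputable def conf (m : ℕ) (w : ℂ) : Fin (m + 1) → MirrorPlane :=
  fun i => if i = 0 then ofC w else ofC ((((i : ℕ) : ℝ) + 1 : ℝ) : ℂ)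

theorem conf_zero (w : ℂ) : conf m w 0 = ofC w := if_pos rfl

theorem conf_of_ne (w : ℂ) {i : Fin (m + 1)} (hi : i ≠ 0) : conf m w i = (basePt m).1 i :=
  if_neg hi

theorem conf_one : conf m 1 = (basePt m).1 := by
  funext i
  by_cases hi : i = 0
  · subst hi
    rw [conf_zero]
    change ofC (1 : ℂ) = ofC (((((0 : Fin (m + 1)) : ℕ) : ℝ) + 1 : ℝ) : ℂ)
    simp
  · exact conf_of_ne _ hi

theorem norm_basePt {i : Fin (m + 1)} (hi : i ≠ 0) : 1 < ‖toC ((basePt m).1 i)‖ := by
  have h1 : (1 : ℝ) ≤ ((i : ℕ) : ℝ) := by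
    have : 1 ≤ (i : ℕ) := Nat.one_le_iff_ne_zero.2 fun e => hi (Fin.ext (by simpa using e))
    exact_mod_cast this
  change 1 < ‖((((i : ℕ) : ℝ) + 1 : ℝ) : ℂ)‖
  rw [Complex.norm_real, Real.norm_of_nonneg (by linarith)]
  linarith

theorem conf_mem (w : ℂ) (hw : ‖w‖ ≤ 1) (i j : Fin (m + 1)) (hij : i ≠ j) (h : ℤˣ) :
    conf m w i ≠ h • conf m w j := by
  intro e
  by_cases hi : i = 0
  · subst hi
    rw [conf_zero, conf_of_ne w hij.symm] at e
    have h1 := norm_toC_smul h ((basePt m).1 j)
    rw [← e] at h1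
    have h2 := norm_basePt hij.symm
    rw [← h1] at h2
    exact absurd hw (not_le.2 h2)
  · rw [conf_of_ne w hi] at e
    by_cases hj : j = 0
    · subst hj
      rw [conf_zero] at e
      have h1 := norm_toC_smul h (ofC w)
      rw [← e] at h1
      have h2 := norm_basePt hi
      rw [h1] at h2
      exact absurd hw (not_le.2 h2)
    · rw [conf_of_ne w hj] at e
      exact (basePt m).2 i j hij h e

/-- The map `w ↦ (w, 2, …, m + 1)` from the unit disc. -/
noncomputable def discMap (m : ℕ) : C(Metric.closedBall (0 : ℂ) 1, PB ℤˣ MirrorPlane (m + 1)) where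
  toFun w := ⟨conf m w.1, conf_mem w.1 (mem_closedBall_zero_iff.1 w.2)⟩
  continuous_toFun := by
    refine Continuous.subtype_mk (continuous_pi fun i => ?_) _
    by_cases hi : i = 0
    · subst hi
      exact continuous_ofC.comp continuous_subtype_val
    · have : (fun w : Metric.closedBall (0 : ℂ) 1 => conf m w.1 i) =
          fun _ => (basePt m).1 i := funext fun w => conf_of_ne _ hi
      rw [this]
      exact continuous_const

/-- The unit circle, as a loop at `1`. -/
noncomputable def circ (t : I) : ℂ := (Circle.exp (2 * Real.pi * (t : ℝ)) : Circle)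

theorem continuous_circ : Continuous circ := by
  unfold circ
  fun_prop

theorem norm_circ (t : I) : ‖circ t‖ = 1 := Circle.norm_coe _

theorem circ_zero : circ 0 = 1 := by simp [circ]

theorem circ_one : circ 1 = 1 := by
  simp [circ]

/-- The last point `s / 2`. -/
noncomputable def lastPt (s : I) : ℂ := (((s : ℝ) / 2 : ℝ) : ℂ)

theorem continuous_lastPt : Continuous lastPt := by
  unfold lastPt
  fun_prop

theorem norm_lastPt (s : I) : ‖lastPt s‖ < 1 := by
  rw [lastPt, Complex.norm_real, Real.norm_of_nonneg (by have := s.2.1; linarith)]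
  have := s.2.2
  linarith

theorem loop_mem (p : I × I) (i j : Fin (m + 2)) (hij : i ≠ j) (h : ℤˣ) :
    Fin.snoc (α := fun _ => MirrorPlane) (conf m (circ p.2)) (ofC (lastPt p.1)) i ≠
      h • Fin.snoc (α := fun _ => MirrorPlane) (conf m (circ p.2)) (ofC (lastPt p.1)) j := by
  have key : ∀ i : Fin (m + 1), 1 ≤ ‖toC (conf m (circ p.2) i)‖ := by
    intro i
    by_cases hi : i = 0
    · subst hi
      rw [conf_zero, toC_ofC, norm_circ]
    · rw [conf_of_ne _ hi]
      exact (norm_basePt hi).le
  have hz : ‖toC (ofC (lastPt p.1))‖ < 1 := norm_lastPt p.1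
  revert hij
  refine Fin.lastCases ?_ (fun i => ?_) i <;>
      refine Fin.lastCases ?_ (fun j => ?_) j <;> intro hij
  · exact absurd rfl hij
  · rw [Fin.snoc_last, Fin.snoc_castSucc]
    intro e
    have := norm_toC_smul h (conf m (circ p.2) j)
    rw [← e] at this
    have h2 := key j
    linarith
  · rw [Fin.snoc_last, Fin.snoc_castSucc]
    intro e
    have := norm_toC_smul h (ofC (lastPt p.1))
    rw [← e] at this
    have h2 := key i
    linarith
  · rw [Fin.snoc_castSucc, Fin.snoc_castSucc]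
    exact conf_mem _ (norm_circ p.2).le i j (fun e => hij (by rw [e])) h

/-- The configurations `(exp (2π i t), 2, …, m + 1, s / 2)`. -/
noncomputable def cfg (m : ℕ) : C(I × I, PB ℤˣ MirrorPlane (m + 2)) where
  toFun p := ⟨Fin.snoc (α := fun _ => MirrorPlane) (conf m (circ p.2)) (ofC (lastPt p.1)),
    loop_mem p⟩
  continuous_toFun := by
    refine Continuous.subtype_mk (continuous_pi fun i => ?_) _
    refine Fin.lastCases ?_ (fun i => ?_) i
    · simp only [Fin.snoc_last]
      exact continuous_ofC.comp (continuous_lastPt.comp continuous_fst)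
    · simp only [Fin.snoc_castSucc]
      by_cases hi : i = 0
      · subst hi
        exact continuous_ofC.comp (continuous_circ.comp continuous_snd)
      · have : (fun p : I × I => conf m (circ p.2) i) = fun _ => (basePt m).1 i :=
          funext fun w => conf_of_ne _ hi
        rw [this]
        exact continuous_const

theorem cfg_apply (p : I × I) : (cfg m p).1 =
    Fin.snoc (α := fun _ => MirrorPlane) (conf m (circ p.2)) (ofC (lastPt p.1)) := rfl

theorem lastPt_one : lastPt 1 = ((1 / 2 : ℝ) : ℂ) := by simp [lastPt]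

theorem lastPt_zero : lastPt 0 = 0 := by simp [lastPt]

/-- The loop `t ↦ (exp (2π i t), 2, …, m + 1, 1/2)`. -/
noncomputable def theLoop (m : ℕ) :
    OrbLoop (Fin (m + 2) → ℤˣ) (incl (basePt m) (fibPt m)) where
  g := 1
  c := (cfg m).comp ⟨fun t => (1, t), by fun_prop⟩
  c_zero := by
    refine Subtype.ext ?_
    change Fin.snoc (α := fun _ => MirrorPlane) (conf m (circ 0)) (ofC (lastPt 1)) =
      Fin.snoc (α := fun _ => MirrorPlane) (basePt m).1 (ofC ((1 / 2 : ℝ) : ℂ))
    rw [circ_zero, conf_one, lastPt_one]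
  c_one := by
    rw [one_smul]
    refine Subtype.ext ?_
    change Fin.snoc (α := fun _ => MirrorPlane) (conf m (circ 1)) (ofC (lastPt 1)) =
      Fin.snoc (α := fun _ => MirrorPlane) (basePt m).1 (ofC ((1 / 2 : ℝ) : ℂ))
    rw [circ_one, conf_one, lastPt_one]

theorem theLoop_apply (t : I) : (theLoop m).c t = cfg m (1, t) := rfl

/-! ### The class of the loop lies in the kernel -/

/-- The point `(1 - s) circ t + s` of the unit disc. -/
noncomputable def discPt (p : I × I) : Metric.closedBall (0 : ℂ) 1 :=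
  ⟨((1 - (p.1 : ℝ) : ℝ) : ℂ) * circ p.2 + ((p.1 : ℝ) : ℂ), by
    rw [mem_closedBall_zero_iff]
    refine (norm_add_le _ _).trans ?_
    rw [norm_mul, norm_circ, Complex.norm_real, Complex.norm_real,
      Real.norm_of_nonneg (sub_nonneg.2 p.1.2.2), Real.norm_of_nonneg p.1.2.1]
    linarith⟩

theorem continuous_discPt : Continuous discPt := by
  refine Continuous.subtype_mk ?_ _
  have := continuous_circ.comp (continuous_snd (X := I) (Y := I))
  have h1 : Continuous fun p : I × I => ((1 - (p.1 : ℝ) : ℝ) : ℂ) := by fun_prop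
  have h2 : Continuous fun p : I × I => ((p.1 : ℝ) : ℂ) := by fun_prop
  exact (h1.mul this).add h2

theorem map_forget_theLoop (m : ℕ) :
    forgetStar (incl (basePt m) (fibPt m)) (Quotient.mk _ (theLoop m)) = 1 := by
  refine Quotient.sound ?_
  refine ⟨rfl, ⟨?_⟩⟩
  have hinit : forget (m + 1) (incl (basePt m) (fibPt m)) = basePt m := by
    refine Subtype.ext (funext fun i => ?_)
    change Fin.snoc (α := fun _ => MirrorPlane) (basePt m).1 (ofC ((1 / 2 : ℝ) : ℂ)) i.castSucc = _
    rw [Fin.snoc_castSucc]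
  refine
    { toFun := fun p => discMap m (discPt p)
      continuous_toFun := (discMap m).continuous.comp continuous_discPt
      map_zero_left := fun t => ?_
      map_one_left := fun t => ?_
      prop' := fun s t ht => ?_ }
  · refine Subtype.ext (funext fun i => ?_)
    change conf m (((1 - ((0 : I) : ℝ) : ℝ) : ℂ) * circ t + (((0 : I) : ℝ) : ℂ)) i =
      Fin.snoc (α := fun _ => MirrorPlane) (conf m (circ t)) (ofC (lastPt 1)) i.castSucc
    rw [Fin.snoc_castSucc]
    simp
  · change discMap m (discPt (1, t)) = forget (m + 1) (incl (basePt m) (fibPt m))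
    rw [hinit]
    refine Subtype.ext ?_
    change conf m (((1 - ((1 : I) : ℝ) : ℝ) : ℂ) * circ t + (((1 : I) : ℝ) : ℂ)) = (basePt m).1
    rw [← conf_one]
    simp
  · have h1 : circ t = 1 := by
      rcases ht with rfl | ht
      · exact circ_zero
      · rw [Set.mem_singleton_iff.1 ht]; exact circ_one
    refine Subtype.ext (funext fun i => ?_)
    change conf m (((1 - (s : ℝ) : ℝ) : ℂ) * circ t + ((s : ℝ) : ℂ)) i =
      Fin.snoc (α := fun _ => MirrorPlane) (conf m (circ t)) (ofC (lastPt 1)) i.castSucc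
    rw [Fin.snoc_castSucc, h1]
    simp

/-! ### The class of the loop does not come from the fibre -/

/-- The lift of the angle. -/
noncomputable def lift (t : I) : ℝ :=
  max 0 (min (2 * Real.pi) (4 * Real.pi * (t : ℝ) - Real.pi))

theorem continuous_lift : Continuous lift := by
  unfold lift
  fun_prop

theorem lift_zero : lift 0 = 0 := by
  have := Real.pi_pos
  simp only [lift, Set.Icc.coe_zero, mul_zero, zero_sub]
  exact max_eq_left ((min_le_right _ _).trans (by linarith))

theorem lift_one : lift 1 = 2 * Real.pi := by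
  have := Real.pi_pos
  simp only [lift, Set.Icc.coe_one, mul_one]
  rw [min_eq_left (by linarith), max_eq_right (by linarith)]

theorem circ_re (t : I) : (circ t).re = Real.cos (2 * Real.pi * (t : ℝ)) := by
  rw [circ, Circle.coe_exp, Complex.exp_ofReal_mul_I_re]

theorem circ_im (t : I) : (circ t).im = Real.sin (2 * Real.pi * (t : ℝ)) := by
  rw [circ, Circle.coe_exp, Complex.exp_ofReal_mul_I_im]

theorem toC_cfg_zero (p : I × I) : toC ((cfg m p).1 0) = circ p.2 := by
  rw [cfg_apply, show (0 : Fin (m + 2)) = (0 : Fin (m + 1)).castSucc from rfl,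
    Fin.snoc_castSucc, conf_zero, toC_ofC]

theorem Psi_cfg (t : I) : Psi (cfg m (0, t)) = Circle.exp (lift t) := by
  have hpi := Real.pi_pos
  have hp : toC ((cfg m (0, t)).1 0) = circ t := toC_cfg_zero _
  have hq : toC ((cfg m (0, t)).1 (Fin.last _)) = 0 := by
    rw [cfg_apply, Fin.snoc_last, toC_ofC, lastPt_zero]
  have ht0 : (0 : ℝ) ≤ t := t.2.1
  have ht1 : (t : ℝ) ≤ 1 := t.2.2
  rcases le_total 0 (circ t).re with h | h
  · rw [Psi_eq_one _ (by rw [hp]; exact h)]
    rw [circ_re] at h
    -- either `t ≤ 1/4` or `t ≥ 3/4`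
    rcases le_total (t : ℝ) (1 / 4) with h4 | h4
    · have : lift t = 0 :=
        max_eq_left ((min_le_right _ _).trans (by nlinarith))
      rw [this]; simp
    · rcases le_total (3 / 4 : ℝ) t with h34 | h34
      · have : lift t = 2 * Real.pi := by
          rw [lift, min_eq_left (by nlinarith), max_eq_right (by linarith)]
        rw [this]; simp
      · have h5 : Real.cos (2 * Real.pi * (t : ℝ)) = - Real.cos (2 * Real.pi * t - Real.pi) := by
          rw [Real.cos_sub_pi, neg_neg]
        have h6 : 0 ≤ Real.cos (2 * Real.pi * t - Real.pi) :=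
          Real.cos_nonneg_of_mem_Icc ⟨by nlinarith, by nlinarith⟩
        have h7 : Real.cos (2 * Real.pi * t - Real.pi) = 0 := by linarith
        have h8 : (t : ℝ) = 1 / 4 ∨ (t : ℝ) = 3 / 4 := by
          by_contra hcon
          push Not at hcon
          have a1 : 1 / 4 < (t : ℝ) := lt_of_le_of_ne h4 (Ne.symm hcon.1)
          have a2 : (t : ℝ) < 3 / 4 := lt_of_le_of_ne h34 hcon.2
          have : 0 < Real.cos (2 * Real.pi * t - Real.pi) :=
            Real.cos_pos_of_mem_Ioo ⟨by nlinarith, by nlinarith⟩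
          linarith
        rcases h8 with h8 | h8
        · have : lift t = 0 :=
            max_eq_left ((min_le_right _ _).trans (by rw [h8]; linarith))
          rw [this]; simp
        · have : lift t = 2 * Real.pi := by
            rw [lift, h8, min_eq_left (by linarith), max_eq_right (by linarith)]
          rw [this]; simp
  · -- `cos ≤ 0`, so `1/4 ≤ t ≤ 3/4`
    have hf : fold (circ t) = - (starRingEnd ℂ) (circ t) := by
      apply Complex.ext <;> simp [fold, abs_of_nonpos h]
    have hW : W (cfg m (0, t)) = - (circ t) ^ 2 := by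
      rw [W, hp, hq, hf]
      simp
      ring
    rw [circ_re] at h
    have b1 : 1 / 4 ≤ (t : ℝ) := by
      by_contra hcon
      push Not at hcon
      have : 0 < Real.cos (2 * Real.pi * (t : ℝ)) :=
        Real.cos_pos_of_mem_Ioo ⟨by nlinarith, by nlinarith⟩
      linarith
    have b2 : (t : ℝ) ≤ 3 / 4 := by
      by_contra hcon
      push Not at hcon
      have h5 : Real.cos (2 * Real.pi * (t : ℝ)) = Real.cos (2 * Real.pi * t - 2 * Real.pi) := by
        rw [Real.cos_sub_two_pi]
      have : 0 < Real.cos (2 * Real.pi * t - 2 * Real.pi) :=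
        Real.cos_pos_of_mem_Ioo ⟨by nlinarith, by nlinarith⟩
      linarith
    have hl : lift t = 4 * Real.pi * (t : ℝ) - Real.pi := by
      rw [lift, min_eq_right (by nlinarith), max_eq_right (by nlinarith)]
    apply Circle.ext
    rw [coe_Psi, hW, norm_neg, norm_pow, norm_circ, hl]
    rw [Circle.coe_exp, circ, Circle.coe_exp]
    have : Complex.exp (((4 * Real.pi * (t : ℝ) - Real.pi : ℝ) : ℂ) * Complex.I) =
        - Complex.exp (((2 * Real.pi * (t : ℝ) : ℝ) : ℂ) * Complex.I) ^ 2 := by
      rw [← Complex.exp_nat_mul]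
      have e : (((4 * Real.pi * (t : ℝ) - Real.pi : ℝ) : ℂ) * Complex.I) =
          ((2 : ℕ) : ℂ) * (((2 * Real.pi * (t : ℝ) : ℝ) : ℂ) * Complex.I) -
            Real.pi * Complex.I := by
        push_cast
        ring
      rw [e, Complex.exp_sub, Complex.exp_pi_mul_I]
      ring
    rw [this]
    simp

/-- Moving the last point from `0` to `1/2`, the value of `Psi` at the end points stays `1`. -/
theorem Psi_cfg_homotopic :
    ((Psi (m := m)).comp (theLoop m).c).HomotopicRel
      (Psi.comp ((cfg m).comp ⟨fun t => (0, t), by fun_prop⟩)) {0, 1} := by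
  refine ⟨
    { toFun := fun p => Psi (cfg m (unitInterval.symm p.1, p.2))
      continuous_toFun := Psi.continuous.comp ((cfg m).continuous.comp (by fun_prop))
      map_zero_left := fun t => ?_
      map_one_left := fun t => ?_
      prop' := fun s t ht => ?_ }⟩
  · change Psi (cfg m (unitInterval.symm 0, t)) = Psi (cfg m (1, t))
    rw [unitInterval.symm_zero]
  · change Psi (cfg m (unitInterval.symm 1, t)) = Psi (cfg m (0, t))
    rw [unitInterval.symm_one]
  · have h1 : circ t = 1 := by
      rcases ht with rfl | ht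
      · exact circ_zero
      · rw [Set.mem_singleton_iff.1 ht]; exact circ_one
    change Psi (cfg m (unitInterval.symm s, t)) = Psi (cfg m (1, t))
    rw [Psi_eq_one _ (by rw [toC_cfg_zero, h1]; simp), Psi_eq_one _ (by rw [toC_cfg_zero, h1]; simp)]

theorem not_homotopic (b : C(I, PB ℤˣ MirrorPlane (m + 2)))
    (hb : ∀ t, Psi (b t) = 1) (h : b.HomotopicRel (theLoop m).c {0, 1}) : False := by
  have h0 : ((Psi (m := m)).comp b).HomotopicRel (Psi.comp (theLoop m).c) {0, 1} :=
    h.map fun K => K.compContinuousMap Psi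
  have h1 : ((Psi (m := m)).comp b).HomotopicRel
      (Psi.comp ((cfg m).comp ⟨fun t => (0, t), by fun_prop⟩)) {0, 1} :=
    ContinuousMap.HomotopicRel.trans h0 Psi_cfg_homotopic
  have hz1 : (Psi (m := m)).comp b 0 = Circle.exp 0 := by
    rw [Circle.exp_zero]; exact hb 0
  have hz2 : (Psi (m := m)).comp ((cfg m).comp ⟨fun t => (0, t), by fun_prop⟩) 0 =
      Circle.exp 0 := by
    change Psi (cfg m (0, 0)) = _
    rw [Psi_cfg, lift_zero]
  have h2 := Circle.isCoveringMap_exp.liftPath_apply_one_eq_of_homotopicRel h1 0 hz1 hz2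
  have h3 : (ContinuousMap.const I (0 : ℝ)) =
      Circle.isCoveringMap_exp.liftPath ((Psi (m := m)).comp b) 0 hz1 := by
    rw [Circle.isCoveringMap_exp.eq_liftPath_iff']
    refine ⟨funext fun t => ?_, rfl⟩
    change Circle.exp 0 = Psi (b t)
    rw [hb, Circle.exp_zero]
  have h4 : (⟨lift, continuous_lift⟩ : C(I, ℝ)) =
      Circle.isCoveringMap_exp.liftPath
        ((Psi (m := m)).comp ((cfg m).comp ⟨fun t => (0, t), by fun_prop⟩)) 0 hz2 := by
    rw [Circle.isCoveringMap_exp.eq_liftPath_iff']
    refine ⟨funext fun t => ?_, lift_zero⟩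
    change Circle.exp (lift t) = Psi (cfg m (0, t))
    rw [Psi_cfg]
  rw [← h3, ← h4] at h2
  have h5 : (0 : ℝ) = lift 1 := h2
  rw [lift_one] at h5
  have := Real.pi_pos
  linarith

theorem not_exact (m : ℕ) : ¬ ExactAtMiddle (basePt m) (fibPt m) := by
  intro hex
  have hmem : (Quotient.mk _ (theLoop m) : OrbPi1 (Fin (m + 2) → ℤˣ) (incl (basePt m) (fibPt m))) ∈
      (inclStar (basePt m) (fibPt m)).range := by
    rw [hex]
    exact map_forget_theLoop m
  obtain ⟨b, hb⟩ := hmem
  induction b using Quotient.inductionOn with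
  | h b =>
    have h1 : OrbLoop.Homotopic (OrbLoop.map (inclHom ℤˣ (m + 1)) (incl (basePt m))
      (incl_smul (basePt m)) b) (theLoop m) := Quotient.exact hb
    refine not_homotopic _ (fun t => ?_) h1.2
    refine Psi_eq_one _ ?_
    change 0 ≤ (toC (Fin.snoc (α := fun _ => MirrorPlane) (basePt m).1 (b.c t).1 0)).re
    rw [show (0 : Fin (m + 2)) = (0 : Fin (m + 1)).castSucc from rfl, Fin.snoc_castSucc,
      ← conf_one, conf_zero, toC_ofC]
    simp

theorem eq_one_of_smul {h : ℤˣ} {z : MirrorPlane} (hz : 0 < (toC z).re) (hh : h • z = z) :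
    h = 1 := by
  rcases Int.units_eq_one_or h with h | h
  · exact h
  · exfalso
    rw [h] at hh
    have h2 := congrArg (fun z => (toC z).re) hh
    simp only [neg_one_smul'] at h2
    linarith

theorem basePt_pos (m : ℕ) (i : Fin (m + 1)) : 0 < (toC ((basePt m).1 i)).re := by
  have h3 : (0 : ℝ) ≤ ((i : ℕ) : ℝ) := Nat.cast_nonneg _
  have h4 : toC ((basePt m).1 i) = ((((i : ℕ) : ℝ) + 1 : ℝ) : ℂ) := rfl
  rw [h4, Complex.ofReal_re]
  linarith

theorem basePt_smooth (m : ℕ) : IsSmoothPoint (basePt m) := by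
  intro k hk
  funext i
  exact eq_one_of_smul (basePt_pos m i) (congrFun (congrArg Subtype.val hk) i)

theorem incl_smooth (m : ℕ) : IsSmoothPoint (incl (basePt m) (fibPt m)) := by
  intro k hk
  funext i
  refine eq_one_of_smul ?_ (congrFun (congrArg Subtype.val hk) i)
  change 0 < (toC (Fin.snoc (α := fun _ => MirrorPlane) (basePt m).1 (ofC ((1 / 2 : ℝ) : ℂ)) i)).re
  refine Fin.lastCases ?_ (fun i => ?_) i
  · rw [Fin.snoc_last, toC_ofC, Complex.ofReal_re]
    norm_num
  · rw [Fin.snoc_castSucc]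
    exact basePt_pos m i

end Pool.Agent.H289R4.Orb
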